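import Pool.Agent.R254.RB.WaveAll
import Pool.Agent.R254.RB.Exist

/-!
# MP_385430_pr: shape of the condensation wave in reinforced branching processes

Full negative answer to Q1, for all parameters: `Ξ_t((1-x/t,1))` does not converge in probability
to `ω(β,γ) G_α(x)` for every `x > 0`.  Every deterministic limit profile is `0` or a multiple of the
Gamma distribution function with rate `γ` and some shape `κ ≤ α`.
-/

open MeasureTheory Filter Topology
open scoped ENNReal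

namespace Pool.Agent.Results.MP_385430_pr.WaveShape

open Pool.Agent.R254.RB

theorem result (μ : Measure ℝ) [IsProbabilityMeasure μ] (β γ α : ℝ) (hC : Cond μ β γ α) :
    (∃ (Ω : Type) (m : MeasurableSpace Ω) (P : Measure Ω),
      IsProbabilityMeasure P ∧ Nonempty (RBP P μ β γ)) ∧
    ∀ {Ω : Type*} [MeasurableSpace Ω] (P : Measure Ω) [IsProbabilityMeasure P]
      (X : RBP P μ β γ),
      (¬ ∀ x : ℝ, 0 < x → ∀ ε : ℝ, 0 < ε → Tendsto (fun t : ℝ =>
        P {ω | ε < |X.Xi (1 - x / t) t ω - (1 - β / (β + γ) * ∫ y, 1 / (1 - y) ∂μ) *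
          ∫ s in (0 : ℝ)..x, s ^ α * Real.exp (-s) / Real.Gamma (1 + α)|}) atTop (𝓝 0)) ∧
      ∀ g : ℝ → ℝ, (∀ x : ℝ, 0 < x → ∀ ε : ℝ, 0 < ε → Tendsto (fun t : ℝ =>
          P {ω | ε < |X.Xi (1 - x / t) t ω - g x|}) atTop (𝓝 0)) →
        (∀ x, 0 < x → g x = 0) ∨ ∃ C κ : ℝ, 0 < C ∧ 0 ≤ κ ∧ κ ≤ α ∧
          ∀ x, 0 < x → g x = C * (Real.exp (-(γ * x)) * x ^ κ +
            γ * ∫ y in (0 : ℝ)..x, y ^ κ * Real.exp (-(γ * y))) :=
  ⟨exists_rbp μ β γ hC.β_pos hC.β_le hC.γ_pos hC.γ_le hC.one_le hC.supp,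
    fun _ _ X => ⟨(all_wave X hC).2, (all_wave X hC).1⟩⟩

end Pool.Agent.Results.MP_385430_pr.WaveShape
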